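import Pool.Agent.Helper47.UKM.Main
import Pool.Agent.Helper89.CPB.MainD

/-!
# The sign conjecture over all fields is equivalent to `B` over the closures of the prime fields

and to uniform separation of the parity over finite fields, and in characteristic 0 to all the
standard conjectures. The definitions are in `Pool.Agent.Helper29.CPB.Statement` (varieties,
sections), `Pool.Agent.Helper89.CPB.StatementD` (Hodge type, the conjectures `A`, `D` of `X × X`),
`Pool.Agent.Helper15.PF.Statement` (varieties over all fields of one characteristic, families over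
curves, descent) and `Pool.Agent.Helper47.UKM.Statement` (arithmetic families).

Idea of the proof. `C⁺` for one generic hyperplane section of `X × X` gives algebraic left inverses
of all `L^c` on `H^j(X)`, `j ≤ dim X - c` (`inverses_of_cplus`); hence `B(X)`. Under `B(X)` the
algebraic classes of opposite degrees on `X × X` have the same dimension (flip by the Lefschetz
isomorphisms), so `A(X × X)` follows from hard Lefschetz for `X × X`. Then the primitive
decomposition of algebraic classes and the Hodge index theorem give `D(X × X)`. Finally `D(X × X)`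
gives `B(X)`: let `w L^c` generate the left ideal of the `θ L^c` modulo numerical equivalence; then
`L^c (1 - w L^c)` is numerically trivial, hence zero.

`B` over the algebraic closure of the prime field gives `B` over all fields of the same
characteristic (`Fields.lefschetz`): spread out, `B` for the total space of a family over a curve
and the invariant cycle theorems give `B` for the geometric generic fibre (induction on the
transcendence degree), and algebraic inverses of `L^c` descend along algebraic extensions.

Arithmetic families (`ArithmeticFamily.cplus_tfae`): pairs of cycles of degree `≤ D` on the squares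
of the fibres are parametrised by finitely many connected projective schemes, on which the
characteristic polynomials are constant. If correspondences of degree `≤ D` separate the even from
the odd cohomology on a dense set of fibres, one of these schemes is surjective and gives such a
correspondence for the generic fibre; as its alternating traces are rational, a polynomial with
rational coefficients in it is the even projector. Conversely the even projector specialises.
-/

namespace Pool.Agent.Results.MP_56c18a_ag.AllStandardConjectures

open Pool.Agent.Helper29.CPB Pool.Agent.Helper15.PF Pool.Agent.Helper47.UKM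

universe u v

variable {F : Type u} [Field F]

/-- In dimension `0` the conjecture `A(X × X)` is trivial. -/
private theorem conjA_of_dim (X : Variety.{u, v} F) (h0 : X.dim = 0) : X.ConjA := by
  intro s b hb
  rcases Nat.eq_zero_or_pos s with rfl | hs
  · exact ⟨b, by simpa using hb, rfl⟩
  · have h1 : X.π 0 = 1 := by
      have h2 := X.grading.sum
      rw [h0] at h2
      simpa using h2
    have hb0 : b = 0 := by
      have h3 := X.cycles.deg s b hb 0
      rw [h1, mul_one, X.grading.out (0 + 2 * (s : ℤ)) (Or.inr (by rw [h0]; omega)), zero_mul] at h3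
      exact h3
    refine ⟨0, X.cycles.zero _, ?_⟩
    have h4 : ∀ k : ℕ, cupPow X.L k (0 : Module.End F X.H) = 0 := by
      intro k
      unfold cupPow
      induction k with
      | zero => rfl
      | succ k ih => rw [Function.iterate_succ_apply', ih, mul_zero, zero_mul, add_zero]
    rw [h4, hb0]

/-- **The sign conjecture over all fields.** (1) Characteristic 0: for every single `X` of positive
dimension and one variety `S`, a generic hyperplane section of `X × X`, the following are
equivalent: `C⁺(S)`; `A(X × X)`; `B(X)`; `D(X × X)`. (2) Any characteristic: for the generic fibre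
`S` of an arithmetic family the following are equivalent: `C⁺(S)`; the parity is separated by
correspondences of bounded degree on all fibres over closed points, or on a dense set of them; with
unbounded degree it always is. (3) For the varieties over all perfect fields of one characteristic
(`0` or `p`) the following are equivalent: `C⁺` for all; `C⁺` for those of odd dimension; `C` for
all; `B` for all; `B` for the varieties over the algebraic closure `k₀` of the prime field; for
every `X` over `k₀`, `C⁺` of one generic hyperplane section of `X × X`; uniform separation of the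
parity in all arithmetic families; the same on a dense set of closed points for one family of
hyperplane sections of `X × X` for every `X` over `k₀`. They follow from `D(X × X)` for all `X` over
`k₀`; in characteristic 0 they are equivalent to `A(X × X)`, and to `D(X × X)`, for all `X` over
`k₀`, and for all `X` over all fields. -/
theorem result [CharZero F] :
    (∀ (X Z S : Variety.{u, v} F) (μ : X.H → X.H → Z.H), SelfProduct X Z μ → 1 ≤ X.dim →
      GenericSection Z S 1 → X.HodgeType → [S.CPlus, X.ConjA, X.Lefschetz, X.ConjD].TFAE) ∧
    (∀ (S : Variety.{u, v} F) (A : ArithmeticFamily S), (∀ t, ∃ D, A.Sep D t) ∧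
      [S.CPlus, ∃ D, ∀ t, A.Sep D t, ∃ D, Dense {t | A.Sep D t}].TFAE) ∧
    (∀ G : ArithmeticFields.{u, v} F,
      [∀ X ∈ G.all, X.CPlus, ∀ X ∈ G.all, Odd X.dim → X.CPlus, ∀ X ∈ G.all, X.Kunneth,
        ∀ X ∈ G.all, X.Lefschetz, ∀ X ∈ G.closed 0, X.Lefschetz,
        ∀ X ∈ G.closed 0, 1 ≤ X.dim → ∃ (Z S : Variety.{u, v} F) (μ : X.H → X.H → Z.H),
          SelfProduct X Z μ ∧ Nonempty (GenericSection Z S 1) ∧ S.CPlus,
        ∀ S ∈ G.all, ∀ A : ArithmeticFamily S, ∃ D, ∀ t, A.Sep D t,
        ∀ X ∈ G.closed 0, 1 ≤ X.dim → ∃ (Z S : Variety.{u, v} F) (μ : X.H → X.H → Z.H)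
          (A : ArithmeticFamily S), SelfProduct X Z μ ∧ Nonempty (GenericSection Z S 1) ∧
          ∃ D, Dense {t | A.Sep D t}].TFAE ∧
      ((∀ X ∈ G.closed 0, X.ConjD) → ∀ X ∈ G.all, X.CPlus) ∧
      ((∀ X ∈ G.all, X.HodgeType) →
        [∀ X ∈ G.all, X.CPlus, ∀ X ∈ G.closed 0, X.ConjA, ∀ X ∈ G.closed 0, X.ConjD,
          ∀ X ∈ G.all, X.ConjA, ∀ X ∈ G.all, X.ConjD].TFAE)) := by
  have one : ∀ (X Z S : Variety.{u, v} F) (μ : X.H → X.H → Z.H), SelfProduct X Z μ → 1 ≤ X.dim →
      GenericSection Z S 1 → (X.Lefschetz ↔ S.CPlus) := by
    intro X Z S μ hsp hX G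
    obtain ⟨τ, hsq⟩ := hsp.isSquare
    have h1 := G.dim
    have h2 := hsp.dim
    constructor
    · intro h
      exact cplus_of_lefschetz hsq G ⟨X.dim - 1, by omega⟩ h
    · intro h
      apply lefschetz_of_inverse
      intro c hc hcn
      exact inverses_of_cplus hsq 1 le_rfl hX G h c hc
  have zero : ∀ X : Variety.{u, v} F, X.dim = 0 → X.Lefschetz := by
    intro X h0
    apply lefschetz_of_inverse
    intro c hc hcn
    omega
  refine ⟨?_, fun S A => ⟨A.sep, A.cplus_tfae⟩, fun G => ?_⟩
  · intro X Z S μ hsp hX G hH
    tfae_have 1 → 3 := (one X Z S μ hsp hX G).mpr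
    tfae_have 3 → 1 := (one X Z S μ hsp hX G).mp
    tfae_have 3 → 2 := conjA_of_lefschetz hsp hH
    tfae_have 2 → 4 := conjD_of_conjA hH
    tfae_have 4 → 3 := lefschetz_of_conjD
    tfae_finish
  · have hBC : (∀ X ∈ G.closed 0, X.Lefschetz) → ∀ X ∈ G.all, X.CPlus := fun h X hX =>
      cplus_of_kunneth X (kunneth_of_lefschetz X (G.lefschetz h X hX))
    have hCB : (∀ X ∈ G.all, X.CPlus) → ∀ X ∈ G.all, X.Lefschetz := by
      intro h X hX
      rcases Nat.eq_zero_or_pos X.dim with h0 | hpos
      · exact zero X h0
      · obtain ⟨Z, μ, hsp, S, hS, ⟨T⟩⟩ := G.sections X hX hpos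
        exact (one X Z S μ hsp hpos T).mpr (h S hS)
    refine ⟨?_, ?_, ?_⟩
    · tfae_have 1 → 2 := fun h X hX _ => h X hX
      tfae_have 2 → 6 := by
        intro h X hX hpos
        obtain ⟨Z, μ, hsp, S, hS, ⟨T⟩⟩ := G.sections X (G.closed_subset 0 hX) hpos
        have h1 := T.dim
        have h2 := hsp.dim
        exact ⟨Z, S, μ, hsp, ⟨T⟩, h S hS ⟨X.dim - 1, by omega⟩⟩
      tfae_have 6 → 5 := by
        intro h X hX
        rcases Nat.eq_zero_or_pos X.dim with h0 | hpos
        · exact zero X h0
        · obtain ⟨Z, S, μ, hsp, ⟨T⟩, hS⟩ := h X hX hpos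
          exact (one X Z S μ hsp hpos T).mpr hS
      tfae_have 5 → 4 := G.lefschetz
      tfae_have 4 → 3 := fun h X hX => kunneth_of_lefschetz X (h X hX)
      tfae_have 3 → 1 := fun h X hX => cplus_of_kunneth X (h X hX)
      tfae_have 1 → 7 := fun h S hS A => (A.cplus_tfae.out 0 1).mp (h S hS)
      tfae_have 7 → 8 := by
        intro h X hX hpos
        obtain ⟨Z, μ, hsp, S, hS, hT, ⟨A⟩⟩ := G.models X hX hpos
        exact ⟨Z, S, μ, A, hsp, hT, (A.cplus_tfae.out 1 2).mp (h S hS A)⟩
      tfae_have 8 → 6 := by
        intro h X hX hpos
        obtain ⟨Z, S, μ, A, hsp, hT, hD⟩ := h X hX hpos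
        exact ⟨Z, S, μ, hsp, hT, (A.cplus_tfae.out 2 0).mp hD⟩
      tfae_finish
    · exact fun h => hBC fun X hX => lefschetz_of_conjD (h X hX)
    · intro hH
      have hA : ∀ X ∈ G.all, X.Lefschetz → X.ConjA := by
        intro X hX h
        rcases Nat.eq_zero_or_pos X.dim with h0 | hpos
        · exact conjA_of_dim X h0
        · obtain ⟨Z, μ, hsp, -⟩ := G.sections X hX hpos
          exact conjA_of_lefschetz hsp (hH X hX) h
      tfae_have 1 → 4 := fun h X hX => hA X hX (hCB h X hX)
      tfae_have 4 → 5 := fun h X hX => conjD_of_conjA (hH X hX) (h X hX)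
      tfae_have 4 → 2 := fun h X hX => h X (G.closed_subset 0 hX)
      tfae_have 2 → 3 := fun h X hX => conjD_of_conjA (hH X (G.closed_subset 0 hX)) (h X hX)
      tfae_have 5 → 3 := fun h X hX => h X (G.closed_subset 0 hX)
      tfae_have 3 → 1 := fun h => hBC fun X hX => lefschetz_of_conjD (h X hX)
      tfae_finish

end Pool.Agent.Results.MP_56c18a_ag.AllStandardConjectures
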