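import Pool.Agent.KMN.Sgn

/-!
# MP_56c18a_ag: the sign conjecture for varieties of `Kum^n`-type and for varieties whose odd
cohomology is generated by them and by abelian varieties

`C` is the rigid additive tensor category of homological motives, `H` the cohomology, `ev M` the
projector of `H(M)` onto its even part, `CPlus P M`: `ev M` is induced by a morphism `M ⟶ M`, i.e. by
an algebraic correspondence. `B` is the motive of an abelian variety: `C⁺` holds for `B` (Kleiman)
and the thick tensor subcategory `⟨B⟩` generated by `B` is semisimple (Lieberman: homological and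
numerical equivalence coincide on abelian varieties, Jannsen), so for every morphism `f` of `⟨B⟩` there
is a `g` with `f g f = f`.

* `C⁺` holds for every object `M` of `⟨B⟩`;
* `C⁺` holds for every `X` with Poincaré duality whose ODD cohomology is a sum of images of morphisms
  from `⟨B⟩` (nothing is assumed on the even cohomology);
* every motive `X` with the structure `KummerMotive` is an object of `⟨B⟩`, so `C⁺` holds for it, and it
  may be used in the second statement.

Every smooth projective variety of `Kum^n`-type (all `n`) has the structure `KummerMotive`, `B` the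
motive of its Kuga-Satake variety; for the geometric proof of this see the comment of
`Pool.Agent.Results.MP_54b9c8_ag.KummerType`.
-/

namespace Pool.Agent.Results.MP_56c18a_ag.KummerTypeAndOddGeneration

open Pool.Agent.KMN CategoryTheory MonoidalCategory Limits

universe v u w

theorem result {C : Type u} [Category.{v} C] [Preadditive C] [HasBinaryBiproducts C]
    [MonoidalCategory C] [RightRigidCategory C] {F : Type w} [Field F] [CharZero F]
    (H : C ⥤ ModuleCat.{w} F) [H.Monoidal] [H.Faithful] [H.Additive] (P : Parity H) (B : C)
    (reg : ∀ M M' : C, Thick B M → Thick B M' → ∀ f : M ⟶ M', ∃ g : M' ⟶ M, f ≫ g ≫ f = f)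
    (hB : CPlus P B) :
    (∀ M : C, Thick B M → CPlus P M) ∧
    (∀ X T : C, FiniteDimensional F (H.obj X) → Thick B T → P.ev T = 𝟙 (H.obj T) →
      (X ≅ Xᘁ ⊗ T) → LinearMap.range (𝟙 (H.obj X) - P.ev X).hom ≤ fromB H B X → CPlus P X) ∧
    (∀ (X : C) (N : ℕ), 0 < N → KummerMotive H B X N → Thick B X ∧ CPlus P X) := by
  refine ⟨fun M hM => thick_cplus P hB hM, fun X T hX hT hTe D hodd => ?_, fun X N hN K => ?_⟩
  · exact cplus_of_odd P B X T reg hB hT hTe D hodd
  · have := finite_of_kummer H B X N hN K
    have h := thick_of_kummer H B X reg N hN K
    exact ⟨h, thick_cplus P hB h⟩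

end Pool.Agent.Results.MP_56c18a_ag.KummerTypeAndOddGeneration
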