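import Pool.Agent.Helper47.PC.Rule

/-!
# The sign conjecture for complete intersections in products

The definitions (`Variety`, `GenericSection`, `Incidence`, `CPlus`, `Lefschetz`, ...) are in
`Pool.Agent.Helper29.CPB.Statement`, (`LefschetzIn`, `LefschetzMap`, `Product`, `HasPrimitive`) in
`Pool.Agent.Helper47.PB.Statement`, (`LeftInverseIn`, `Duality`, `PolarMap`) in
`Pool.Agent.Helper47.PC.Statement` and (`Sections`, `CPlusUpTo`) in
`Pool.Agent.Helper47.PC.Sections`.

Let `B_i(X)` be the Lefschetz standard conjecture in degree `i`, let `X_e` be a generic complete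
intersection of codimension `e` in `X`, and let `C_n(X)` be the statement that `C⁺(X_e)` holds for
all `e > 0` with `1 ≤ dim X_e ≤ n`. For products of varieties `Z`, `Y` for which `C⁺` holds we prove
the following two rules.

(a) `C_n(Z × Y)` holds if and only if `C_n(Z)` and `C_n(Y)` hold and, for all `p + q < n`, `B_p(Z)`
or `B_q(Y)` holds.

(b) If `B(Y)` holds, then `C⁺((Z × Y)_s)` holds if and only if `C⁺(Z_e)` holds for all `e < dim Z`
with `e - 1` in `{|m - s + 1|, …, m + s - 1}` (steps of `2`, as in the formula of Clebsch and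
Gordan), for all `m` such that `Y` has primitive cohomology in degree `dim Y - m`.

New unconditional cases of `C⁺`. `B_0`, `B_1` and `C⁺` in the dimensions `≤ 2` are known. Let
`X_1, …, X_r` be varieties over a field `K` containing the algebraic closure `k` of `𝔽_p`, such that
`X_i` is the base change of a threefold over `k` (`C⁺` holds by Katz and Messing), or `B(X_i)` holds
(curves, surfaces, abelian varieties, flag varieties, ...). Then `C_n(X_i)` holds for all `n`, and
the last condition in (a) is empty for `n = 4`. So `C_4(X_1 × … × X_r)` holds, and `C⁺(S)` holds for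
every smooth complete intersection `S` over `K`, of dimension `≤ 4`, in the product (not only for
generic ones); also for cyclic covers, products of such `S` and their complete intersections of
dimension `≤ 4`, and so on. If `B(X_i)` holds for all `i` but one, then `C⁺(S)` holds for all
complete intersections. Neither `B` of the threefolds nor `B(S)` is known, and `S` is not defined
over a finite field. By (b), `C⁺(S)` holds also for every smooth complete intersection `S` over `K`
of codimension `s ≤ m + 4 - dim V` in `V_K × P^m`, where `V` is any smooth projective variety over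
`k`, and in `V_K × Y` if `B(Y)` holds and `|m + 1 - s| ≥ dim V - 3` for all `m` such that `Y` has
primitive cohomology in degree `dim Y - m`. If `H^2` of a fourfold `X` over `k` is spanned by
divisors, then `B_2(X)` holds, so one has `C⁺(S)` for `dim S ≤ 6` in products of such fourfolds. The
rule (a) also says that nothing more can be obtained in this way: if `X_1` and `X_2` are threefolds,
then `C⁺(S)` for the generic hyperplane section `S` of `X_1 × X_2`, of dimension `5`, is equivalent
to `B(X_1)` or `B(X_2)`.

Idea of the proof. (1) Let `S` be a complete intersection of codimension `s` in `T`. On the `H^j(S)`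
with `j ≡ dim S + 1` modulo `2` (so `j ≠ dim S`) the projector `π` onto their sum is `u γ π v / N`,
with the restriction `u`, the Gysin map `v` and an algebraic quasi-inverse `γ` of `L^s` on `H(T)` in
the degrees `≡ dim S + 1`. Quasi-inverses in different degrees can be glued:
`A - A θ' A = (1 - A θ) A (1 - θ_j A)` for `θ' = θ + θ_j - θ A θ_j`; and by duality it is enough to
have left inverses of `L^s` on the `H^j(T)`, `j < dim S`. If `S` is generic, all algebraic
self-correspondences of `S` come from `T` and the diagonal, so `γ` is also necessary. It follows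
that `C_n(T)` is equivalent to the following weak forms `W_j(T)` of `B_j(T)` for all `j < n`:
`L^(dim T - j - 1)` has an algebraic left inverse on `H^j(T)`. (2) Let `T = Z × Y`, `j = p + q`,
`s = dim T - j - 1`, let `B_i(Z)` hold for `i ≤ z`, `B_i(Y)` for `i ≤ z'`, and `j ≤ z + z' + 1`.
This gives a projector `ρ` of `H(Z)` onto the sum of the strings `x, L x, …, L^m x`, `x` primitive
of degree `≤ z`; it is the identity in the degrees `≤ z`. On the product of two strings `L^s` is a
matrix, and one has an algebraic operator which maps `L^s (a ⊗ y)` to `ρ a ⊗ ρ y`. On the product of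
`H(Z)` with a string of `Y`, `L^s` is the multiplication by `(X + N)^s` on `H(Z)[N]/N^(m+1)`,
`X = L`. It has the Smith normal form `(X + N)^s f_k = X^(e_k) g_k`, `0 ≤ k ≤ m`, where the `f_k`
and the `g_k` are bases: `f_k = N^k` if `k + s ≤ m`, and otherwise `f_k` is a Padé polynomial of
degree `k`, such that the product has no terms `N^i` for `m - k < i ≤ m`. Here `e_k` is exactly the
exponent of `W_i(Z)` for the component of `f_k`, which has degree `i`. This gives algebraic
operators which map `L^s (a ⊗ y)` to `a ⊗ ρ y` and to `ρ a ⊗ y`. As `p ≤ z` or `q ≤ z'`, one has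
`(a - ρ a) ⊗ (y - ρ y) = 0`. (3) Conversely, let `θ` be an algebraic left inverse of `L^s` on
`H^j(T)`, `c = dim Z - p`, `c' = dim Y - q`, so `s = c + c' - 1`. The left ideal of the `w L^c` is
generated modulo numerically trivial elements by some `w₀ L^c`; let `a = 1 - w₀ L^c`, so `L^c a` is
numerically trivial, and define `b` in the same way for `Y`. Then `θ (L ⊗ 1 + 1 ⊗ L)^s (a ⊗ b)` is
numerically trivial, hence nilpotent, and it is `a ⊗ b` on `H^p(Z) ⊗ H^q(Y)`. So `a` is nilpotent on
`H^p(Z)` or `b` is nilpotent on `H^q(Y)`, which gives `B_p(Z)` or `B_q(Y)`. `W_j(Z)` follows from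
`W_j(T)` by contraction with `H^0(Y)`. (4) If `B(Y)` holds, then `ρ = 1` on `H(Y)`, and the argument
with the Smith normal form works for all `s` and `j`: on the strings of length `m` one needs exactly
the left inverses of the `L^e` on `H(Z)` with `e` as in (b). They follow from a left inverse of
`L^s` by contraction with the primitive classes of `Y`.
-/

namespace Pool.Agent.Results.MP_56c18a_ag.SignForAmpleDivisors

open Pool.Agent.Helper29.CPB Pool.Agent.Helper47.PB Pool.Agent.Helper47.PC

universe u v

variable {F : Type u} [Field F]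

/-- **The sign conjecture for complete intersections in products.**

(1) Let `T = Z × Y`, and let `C⁺` and the Lefschetz conjecture in degree `0` hold for `Z` and `Y`
(and `H^0 ≠ 0`). `C⁺` holds for the generic complete intersections of dimension `≤ n` in `T` if and
only if it holds for those in `Z` and in `Y` and, for all `p + q < n`, the Lefschetz conjecture
holds for `Z` in degree `p` or for `Y` in degree `q`. The Lefschetz conjecture holds for `T` in all
degrees `i < n` if and only if it holds for `Z` and for `Y` in all degrees `i < n`. If `C⁺(S)` holds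
for one generic complete intersection `S` in `T`, then, for all `p + q = dim S - 1`, the Lefschetz
conjecture holds for `Z` in degree `p` or for `Y` in degree `q`.

(2) Let `T = Z × Y`, and let `C⁺(Z)` and `B(Y)` hold. Let `S` be a smooth complete intersection of
codimension `s` in `T`. `C⁺(S)` holds if `C⁺(Z_e)` holds for the generic complete intersections
`Z_e` in `Z` of all codimensions `e < dim Z`, `e ≡ m + s` modulo `2`, with `|m + 1 - s| < e ≤ m + s`
for some `m` such that `Y` has primitive cohomology in degree `dim Y - m`. If `S` is generic, this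
condition is also necessary.

(3) Let `C⁺(T)` hold, and let `C⁺` hold for the generic complete intersections of dimension `≤ n` in
`T`. If `S` is any smooth complete intersection of dimension `≤ n` in `T` or a cyclic cover of `T`,
then `C⁺` holds for `S` and for the generic complete intersections of dimension `≤ n` in `S`. The
Lefschetz conjecture in degree `i` passes from `T` to `S`.

(4) Let `C⁺(T)` hold, and let `S` be a smooth complete intersection of codimension `s` in `T`.
`C⁺(S)` holds if `L^s` has algebraic left inverses on the `H^j(T)` with `j < dim S` and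
`j ≡ dim S + 1` modulo `2`; if `S` is generic, this condition is also necessary. -/
theorem result [CharZero F] :
    (∀ (Z Y T : Variety.{u, v} F) (μ : Z.H → Y.H → T.H), Product Z Y T μ →
      Product Y Z T (fun y x => μ x y) → ∀ (GT : Sections T) (GZ : Sections Z) (GY : Sections Y),
      Duality T → Duality Z → Duality Y → Z.CPlus → Y.CPlus → LefschetzIn Z 0 →
      LefschetzIn Y 0 → Z.π 0 ≠ 0 → Y.π 0 ≠ 0 → ∀ n, (GT.CPlusUpTo n ↔
        GZ.CPlusUpTo n ∧ GY.CPlusUpTo n ∧ ∀ p q, p + q < n → LefschetzIn Z p ∨ LefschetzIn Y q)) ∧
    (∀ (Z Y T : Variety.{u, v} F) (μ : Z.H → Y.H → T.H), Product Z Y T μ →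
      Product Y Z T (fun y x => μ x y) → Z.CPlus → Y.CPlus → LefschetzIn Z 0 →
      LefschetzIn Y 0 → Z.π 0 ≠ 0 → Y.π 0 ≠ 0 → ∀ n, ((∀ i < n, LefschetzIn T i) ↔
        (∀ i < n, LefschetzIn Z i) ∧ (∀ i < n, LefschetzIn Y i))) ∧
    (∀ (Z Y T S : Variety.{u, v} F) (μ : Z.H → Y.H → T.H) (s : ℕ), Product Z Y T μ →
      Product Y Z T (fun y x => μ x y) → GenericSection T S s → Z.CPlus → Y.CPlus → S.CPlus →
      ∀ p q, p + q + 1 = S.dim → LefschetzIn Z p ∨ LefschetzIn Y q) ∧
    (∀ (Z Y T S : Variety.{u, v} F) (μ : Z.H → Y.H → T.H) (s : ℕ), Product Z Y T μ →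
      LefschetzMap T S s → Duality T → ∀ (GZ : Sections Z), Duality Z → Z.CPlus → Y.Lefschetz →
      (∀ m ≤ Y.dim, HasPrimitive Y m → ∀ e, m + 2 ≤ e + s → s ≤ e + m → e ≤ m + s →
        Even (e + m + s) → e < Z.dim → (GZ.sec e).CPlus) → S.CPlus) ∧
    (∀ (Z Y T S : Variety.{u, v} F) (μ : Z.H → Y.H → T.H) (s : ℕ), Product Z Y T μ →
      GenericSection T S s → Duality T → ∀ (GZ : Sections Z), Duality Z → Z.CPlus →
      Y.Lefschetz → (S.CPlus ↔
      ∀ m ≤ Y.dim, HasPrimitive Y m → ∀ e, m + 2 ≤ e + s → s ≤ e + m → e ≤ m + s →
        Even (e + m + s) → e < Z.dim → (GZ.sec e).CPlus)) ∧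
    (∀ (T S : Variety.{u, v} F) (s n : ℕ), PolarMap T S s → Duality T → Duality S →
      ∀ (GT : Sections T) (GS : Sections S), T.CPlus → GT.CPlusUpTo n → (s = 0 ∨ S.dim ≤ n) →
      S.CPlus ∧ GS.CPlusUpTo n) ∧
    (∀ (T S : Variety.{u, v} F) (s i : ℕ), PolarMap T S s → LefschetzIn T i →
      LefschetzIn S i) ∧
    (∀ (T S : Variety.{u, v} F) (s : ℕ), LefschetzMap T S s → Duality T → T.CPlus →
      (∀ j < S.dim, Even (j + S.dim + 1) → LeftInverseIn T s j) → S.CPlus) ∧
    (∀ (T S : Variety.{u, v} F) (s : ℕ), GenericSection T S s → Duality T → T.CPlus →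
      (S.CPlus ↔ ∀ j < S.dim, Even (j + S.dim + 1) → LeftInverseIn T s j)) :=
  ⟨fun _ _ _ _ hP hP' GT GZ GY PT PZ PY hZ hY hZ0 hY0 hZn hYn n =>
      cplusUpTo_product_iff hP hP' GT GZ GY PT PZ PY hZ hY hZ0 hY0 hZn hYn n,
    fun _ _ _ _ hP hP' hZ hY hZ0 hY0 hZn hYn n =>
      lefschetzIn_product_iff hP hP' hZ hY hZ0 hY0 hZn hYn n,
    fun _ _ _ _ _ _ hP hP' G hZ hY h => lefschetz_or_of_generic hP hP' G hZ hY h,
    fun _ _ _ _ _ _ hP D PT GZ PZ hZ hY h => cplus_of_rule hP D PT GZ PZ hZ hY h,
    fun _ _ _ _ _ _ hP G PT GZ PZ hZ hY => cplus_iff_rule hP G PT GZ PZ hZ hY,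
    fun _ _ _ _ D PT PS GT GS hT h hn => stable D PT PS GT GS hT h hn,
    fun _ _ _ _ D h => lefschetzIn_of_map D h,
    fun _ _ _ D P h hq => cplus_of_left D P h hq,
    fun _ _ _ G P h => cplus_iff_left G P h⟩

end Pool.Agent.Results.MP_56c18a_ag.SignForAmpleDivisors
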