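import Pool.Agent.Helper90.NS.Local
import Pool.Agent.Helper90.NS.One
import Pool.Agent.Helper90.NS.Rat
import Pool.Agent.Helper90.NS.CI
import Pool.Agent.Helper47.NS.Phantom
import Pool.Agent.Helper70.NS.Main
import Pool.Agent.NS3.End

/-!
# The sign conjecture up to numerical equivalence, for the powers of a generic section

The definitions are in `Pool.Agent.Helper29.CPB.Statement`, `Pool.Agent.Helper89.NN.Statement`,
`Pool.Agent.Helper90.NS.Statement`, `Pool.Agent.NS3.Stat`, `Pool.Agent.Helper15.PF.Statement` and
`Pool.Agent.Helper70.NS.Statement`.

Idea of the proof. Let `S` be a generic member of `|mL|` on `Z = X × X`, `V` the vanishing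
cohomology and `I` the ideal of the correspondences of `S` coming from `Z`. The big monodromy
theorem is proved, in infinitesimal form, from the Picard–Lefschetz theory.

(a) If the class of `π⁺` of `S^K` is numerically equivalent to an algebraic class `s`, then for `t`
numerically trivial `tr (t^n | H⁺) = t^n · s = 0` for all `n`, and the supertraces of the `t^n`
vanish, so `t` is nilpotent. Conversely nilpotence of `t` gives `tr (t | H⁺) = 0`.

(b) Nilpotence for `S^(k+1)` gives nilpotence for `S^k` (multiply with the diagonal), so it may be
used for all `k ≤ K`. Let `e` be a symmetric idempotent in `I` which is a unit of `I` modulo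
numerical equivalence, `p = 1 - e`, `U = p H(S) = V ⊕ W`. If `W` has an even part, the superdimension
of `U` is `2 - 2k` with `1 ≤ k ≤ K`; a contraction argument with the symplectic invariants of `V`
shows that the symmetrisation `T` of `B ⊗ ⋯ ⊗ B` on `U` is numerically trivial on `S^k`; but
`T (w ⊗ ⋯ ⊗ w) = c w ⊗ ⋯ ⊗ w`, `c ≠ 0`, for `w` even and isotropic. Hence `W` is odd, so `e` is `1`
on the even cohomology, and `L` on `Z` has an algebraic left inverse `γ` on the even cohomology.

(c) To get `B(X)` one needs that operators `T = p L K` of `Z` with `L K` numerically trivial are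
nilpotent: `T` is conjugate (up to a scalar) to the correspondence `up (K p) dn` of `S`, which is
numerically trivial by the description of the cycles on `S × S`.

(d) Nilpotence passes from `Z` to `S`: let `a = up γ dn + c` be numerically trivial on `S`. Then
`c = 0`, because the eigenvalue `c` has multiplicity `dim V` on `V` and at most `dim H(Z) < dim V` on
the complement. The operator `y = γ L` of `Z` is orthogonal to the left ideal generated by `L`, to
which `x y` belongs for all `x`; so `y²` is numerically trivial, hence nilpotent. If the traces on
the even cohomology are rational, they define a rational functional on the finite dimensional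
`ℚ`-space of correspondences modulo numerical equivalence, which is given by an algebraic class.

(e) If `C⁺(Z)` holds, nilpotence holds for `S^i` for every `i`, if `m` is large. Let `t` be
numerically trivial, with `n = 2i` places, and put `p` in all places. The description of the cycles on
`S^n` gives `t p = ∑ I_l (s_l p) + ∑ r_j p`, where `I_l` is the product with the form `B (p ·) ·` on the
places `0` and `l + 1`, and `r_j` is restricted from `Z` in the place `j`. Here `r_j p` is numerically
trivial, since contraction in the other places gives a correspondence which kills `V`, so it is in the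
ideal `I`. The contractions of `∑ I_l (s_l p)` in the places `0` and `l + 1` are
`χ s_l p + ∑ ρ_lj s_j p`, with permutations `ρ_lj` and `χ = dim⁺ U - dim⁻ U`; this integer matrix is
diagonally dominant if `|χ| > n - 2`, so the `s_l p` are numerically trivial. By induction on `i` the
traces of `I_l (s_l p)` and `r_j p` on the even cohomology vanish: the second one by contracting the
place `j` with its partner first, after composition with `π⁺` of `Z`, which is algebraic.

(f) If `C⁺(X)` holds, nilpotence holds for `X × X`, hence for `S`. If it passes from `S^k` to
`S^(2k)` for all `k`, it holds for `S^(2^r)`, so `B(X)` holds by (1). `B` over the algebraic closure of the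
prime field implies `B` over all fields of the same characteristic (`Fields.lefschetz`).
-/

namespace Pool.Agent.Results.MP_56c18a_ag.SignUpToNumericalEquivalence

open Pool.Agent.Helper29.CPB Pool.Agent.Helper89.NN Pool.Agent.Helper90.NS
  Pool.Agent.Helper47.NS Pool.Agent.Helper70.NS Pool.Agent.NS3

universe u v

variable {F : Type u} [Field F]

/-- **The sign conjecture up to numerical equivalence.** (1) Let `X` be of positive dimension, `S` a
generic member of `|mL|` on `X × X`, `m` large, and `2K ≥ dim H(S) + 2`. The following are
equivalent: `B(X)`; `C⁺(S)`; the class of `π⁺` of `S^K` is numerically equivalent to an algebraic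
class; the numerically trivial self-correspondences of `S^K` are nilpotent; and, if the traces on
the even cohomology are rational, none of them is a non-zero idempotent. (2) Let `S` be the
intersection of `s` generic members of `|mL|` in any `Z`, `m` large. If the numerically trivial
self-correspondences of `Z` are nilpotent, so are those of `S`. If `C⁺(Z)` holds (for example if `Z` is
defined over the algebraic closure of a finite field), then the numerically trivial
self-correspondences of `S^i` are nilpotent, and, if the traces on the even cohomology of `S^i` are
rational, the class of `π⁺` of `S^i` is numerically equivalent to an algebraic class, for every `i`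
such that any `2i` distinct points impose independent conditions on `|mL|`. (3) For the varieties
over all perfect fields of one characteristic the following are equivalent: `C⁺`, `C`, `B` for all;
`B` over the algebraic closure `k₀` of the prime field; `C⁺` up to numerical equivalence for one
power of one generic section of `X × X`, for every `X` over `k₀`; nilpotence for all powers of all;
`C⁺` up to numerical equivalence for all powers of all. If `C⁺` holds over `k₀` (which is known in characteristic
`p > 0`) they are equivalent to: nilpotence passes from `X^k` to `X^(2k)` for all `X` and `k`; and to: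
`C⁺` up to numerical equivalence passes from `X^k` to `X^(2k)` for all `X` and `k`. -/
theorem result [CharZero F] :
    (∀ (X Z S : Variety.{u, v} F) (μ : X.H → X.H → Z.H) (P : Powers S), SelfProduct X Z μ →
      1 ≤ X.dim → GenericMember Z S P → ∀ K : ℕ, Module.finrank F S.H + 2 ≤ 2 * K →
      [X.Lefschetz, S.CPlus, NumCPlus P K, P.Nilpotence K].TFAE ∧
        (RationalTrace P K → (NoPhantom P K ↔ X.Lefschetz))) ∧
    (∀ (Z S : Variety.{u, v} F) (s : ℕ) (P : Powers S) (G : GenericSection Z S s),
      Module.finrank F Z.H < Module.finrank F (LinearMap.ker G.dn) →
      (Nilpotence Z → Nilpotence S) ∧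
      (Z.CPlus → ∀ i : ℕ, PowerIncidence P G (2 * i) →
        Module.finrank F Z.H + 2 * i < Module.finrank F (LinearMap.ker G.dn) →
        P.Nilpotence i ∧ (RationalTrace P i → NumCPlus P i))) ∧
    (∀ G : PowerFields.{u, v} F,
      [∀ X ∈ G.all, X.CPlus, ∀ X ∈ G.all, X.Kunneth, ∀ X ∈ G.all, X.Lefschetz,
        ∀ X ∈ G.closed 0, X.Lefschetz,
        ∀ X ∈ G.closed 0, 1 ≤ X.dim → ∃ (Z S : Variety.{u, v} F) (μ : X.H → X.H → Z.H)
          (h : S ∈ G.all) (K : ℕ), SelfProduct X Z μ ∧ Nonempty (GenericMember Z S (G.pow S h)) ∧
            Module.finrank F S.H + 2 ≤ 2 * K ∧ NumCPlus (G.pow S h) K,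
        ∀ X, ∀ h : X ∈ G.all, ∀ k, (G.pow X h).Nilpotence k,
        ∀ X, ∀ h : X ∈ G.all, ∀ k, NumCPlus (G.pow X h) k].TFAE ∧
      ((∀ X ∈ G.closed 0, X.CPlus) →
        [∀ X ∈ G.all, X.CPlus,
          ∀ X, ∀ h : X ∈ G.all, ∀ k, (G.pow X h).Nilpotence k → (G.pow X h).Nilpotence (2 * k),
          ∀ X, ∀ h : X ∈ G.all, ∀ k,
            NumCPlus (G.pow X h) k → NumCPlus (G.pow X h) (2 * k)].TFAE)) := by
  refine ⟨?_, ?_, ?_⟩
  · intro X Z S μ P hsp hX G K hK
    have h : [X.Lefschetz, S.CPlus, NumCPlus P K, P.Nilpotence K].TFAE := by
      tfae_have 1 → 2 := cplus_section_of_lefschetz hsp hX G.toGenericSection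
      tfae_have 2 → 3 := fun h => numCPlus_of_cplus P h K
      tfae_have 3 → 4 := fun h => nilpotence_of_numTrace P (numTrace_of_numCPlus P h)
      tfae_have 4 → 1 := lefschetz_of_nilpotence hsp hX G hK
      tfae_finish
    refine ⟨h, fun hr => ?_⟩
    have hL := G.large
    have hr' := rationalCorr_of_trace P hr fun _ _ ht hs => link_rat P S.cycles.one
      (str_one_ne_zero G.toGenericSection (by omega)) ht hs
    exact (nilpotence_iff_noPhantom P K hr').symm.trans (h.out 3 0)
  · intro Z S s P G hL
    exact ⟨CI.nilpotence_section G hL, fun hZ i I hi => nilpotence_power P G i I hZ hi⟩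
  · exact fun G => ⟨G.tfae, G.stable_tfae⟩

end Pool.Agent.Results.MP_56c18a_ag.SignUpToNumericalEquivalence
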